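import Pool.Agent.H69.KZ.Stm

namespace KZ

theorem COM_proved (hKAT : S_KAT) (hLFT : S_LFT) (hRGT : S_RGT) (hMAI : S_MAI) (hBAS : S_BAS) :
    S_COM := by
  intro n k d hk hkn hn hd
  have hn1 : 1 ≤ n := by omega
  have hn0 : (1 : ℝ) ≤ n := by exact_mod_cast hn1
  obtain ⟨b1, -, b3, -, b5⟩ := hBAS k n (by omega)
  have hN : ((n * (k - 1) : ℕ) : ℤ) = (n : ℤ) * ((k : ℤ) - 1) := by
    rw [Nat.cast_mul, Nat.cast_sub (by omega)]; push_cast; ring
  set ε : ℝ := 1 / (8 * (n : ℝ) ^ 2) with hε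
  set ρ : ℝ := 1 / (((n : ℝ) + 1) * k) with hρ
  have hk0 : (2 : ℝ) ≤ k := by exact_mod_cast hk
  have hkn' : (k : ℝ) ≤ n := by exact_mod_cast hkn.le
  have hε0 : 0 < ε := by positivity
  have hε1 : ε ≤ 1 / 8 := by
    rw [hε]
    apply one_div_le_one_div_of_le (by norm_num)
    nlinarith
  have hρε : 4 * ε ≤ ρ := by
    have h1 : 4 * ε = 1 / (2 * (n : ℝ) ^ 2) := by rw [hε]; field_simp; norm_num
    rw [h1, hρ]
    apply one_div_le_one_div_of_le (by positivity)
    nlinarith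
  have hfac : 1 + ε ≤ (1 + ρ) * (1 - ε) := by nlinarith
  have key : ∀ e : ℕ, 36 * Real.log n ≤ e →
      |(h n k e : ℝ) - c k n ((k : ℤ) * e)| ≤ c k n ((k : ℤ) * e) * ε := by
    intro e he
    have h1 : |(h n k e : ℝ) - c k n ((k : ℤ) * e)| ≤ T n k e := by
      rw [hKAT n k e hn1 (by omega), Finset.range_eq_Ico, Finset.sum_eq_sum_Ico_succ_bot (by omega)]
      have h2 : (-1 : ℝ) ^ 0 * (n.choose 0 : ℝ) *
          c (k - 0) n (((k - 0 : ℕ) : ℤ) * ((e : ℤ) + 1) - (k : ℤ)) = c k n ((k : ℤ) * e) := by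
        simp only [pow_zero, Nat.choose_zero_right, Nat.cast_one, one_mul, Nat.sub_zero]
        congr 1
        ring
      rw [h2, add_sub_cancel_left]
      refine (Finset.abs_sum_le_sum_abs _ _).trans ?_
      unfold T
      refine Finset.sum_le_sum fun i hi => ?_
      have hi' := Finset.mem_Ico.1 hi
      have h3 := (hBAS (k - i) n (by omega)).1 (((k - i : ℕ) : ℤ) * ((e : ℤ) + 1) - (k : ℤ))
      rw [abs_mul, abs_mul, abs_pow, abs_neg, abs_one, one_pow, one_mul, abs_of_nonneg h3,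
        abs_of_nonneg (Nat.cast_nonneg _)]
    refine h1.trans ?_
    have h4 : c k n ((k : ℤ) * e) * ε = c k n ((k : ℤ) * e) / (8 * (n : ℝ) ^ 2) := by
      rw [hε, mul_one_div]
    rw [h4]
    rcases le_or_gt (2 * k * e) (n * (k - 1)) with h5 | h5
    · exact hLFT n k e hk hkn hn he h5
    · exact hRGT n k e hk hkn hn h5
  have kd := abs_le.1 (key d hd)
  have kd1 := abs_le.1 (key (d + 1) (by push_cast; linarith))
  have hc : (k : ℤ) * ((d + 1 : ℕ) : ℤ) = (k : ℤ) * d + k := by push_cast; ring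
  rw [hc] at kd1
  have a0 := b1 ((k : ℤ) * d)
  have a1 := b1 ((k : ℤ) * d + k)
  constructor
  · intro hlt
    have h1 : 2 * ((k : ℤ) * d) + k < (n : ℤ) * (k - 1) := by
      rw [← hN]; exact_mod_cast (by linarith : 2 * (k * d) + k < n * (k - 1))
    have h2 := hMAI n k ((k : ℤ) * d) hk (by positivity) h1
    rw [← hρ] at h2
    have h3 : (h n k d : ℝ) ≤ h n k (d + 1) := by
      have h4 : c k n ((k : ℤ) * d) * (1 + ε) ≤ c k n ((k : ℤ) * d) * (1 + ρ) * (1 - ε) := by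
        rw [mul_assoc]; gcongr
      have h5 : c k n ((k : ℤ) * d) * (1 + ρ) * (1 - ε) ≤ c k n ((k : ℤ) * d + k) * (1 - ε) := by
        gcongr; linarith
      nlinarith [kd.2, kd1.1]
    exact_mod_cast h3
  · intro hlt
    have h2 : c k n ((k : ℤ) * d + k) * (1 + ρ) ≤ c k n ((k : ℤ) * d) := by
      rcases le_or_gt (k * (d + 1)) (n * (k - 1)) with h5 | h5
      · have h6 : (k : ℤ) * d + k ≤ (n : ℤ) * (k - 1) := by
          rw [← hN]; exact_mod_cast (by linarith : k * d + k ≤ n * (k - 1))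
        have h7 : (n : ℤ) * (k - 1) < 2 * ((k : ℤ) * d) + k := by
          rw [← hN]; exact_mod_cast (by linarith : n * (k - 1) < 2 * (k * d) + k)
        have h1 := hMAI n k ((n : ℤ) * (k - 1) - ((k : ℤ) * d + k)) hk (by linarith) (by linarith)
        have h8 : (n : ℤ) * (k - 1) - ((k : ℤ) * d + k) + k = (n : ℤ) * (k - 1) - (k : ℤ) * d := by
          ring
        rw [h8, b5, b5, ← hρ] at h1
        exact h1
      · have h6 : (n : ℤ) * (k - 1) < (k : ℤ) * d + k := by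
          rw [← hN]; exact_mod_cast (by linarith : n * (k - 1) < k * d + k)
        rw [b3 _ h6, zero_mul]
        exact a0
    have h3 : (h n k (d + 1) : ℝ) ≤ h n k d := by
      have h4 : c k n ((k : ℤ) * d + k) * (1 + ε) ≤ c k n ((k : ℤ) * d + k) * (1 + ρ) * (1 - ε) := by
        rw [mul_assoc]; gcongr
      have h5 : c k n ((k : ℤ) * d + k) * (1 + ρ) * (1 - ε) ≤ c k n ((k : ℤ) * d) * (1 - ε) := by
        gcongr; linarith
      nlinarith [kd.1, kd1.2]
    exact_mod_cast h3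

end KZ
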