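import Pool.Agent.H69.KZ.Stm

namespace KZ.LFT_aux

lemma P_ge (k : ℕ) (hk : 2 ≤ k) (y : ℝ) (hy : 0 < y) : 1 + y ≤ P k y := by
  unfold P
  have h1 : Finset.range 2 ⊆ Finset.range k := Finset.range_subset_range.2 hk
  have h2 := Finset.sum_le_sum_of_subset_of_nonneg (f := fun j => y ^ j) h1
    fun i _ _ => (pow_pos hy i).le
  rw [Finset.sum_range_succ, Finset.sum_range_one] at h2
  simpa using h2

lemma log_ge_one (n : ℕ) (hn : 3 ≤ n) : 1 ≤ Real.log n := by
  rw [Real.le_log_iff_exp_le (by positivity)]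
  have h1 := Real.exp_one_lt_d9
  have h2 : (3 : ℝ) ≤ n := by exact_mod_cast hn
  linarith

lemma choose_le (n i : ℕ) : (n.choose i : ℝ) ≤ (n : ℝ) ^ i := by
  exact_mod_cast Nat.choose_le_pow n i

lemma size_le (n k : ℝ) (hn : 3 ≤ n) (hk : k + 1 ≤ n) : n * (k - 1) + 1 ≤ n ^ 2 := by
  have h1 : n * (k - 1) ≤ n * (n - 2) := mul_le_mul_of_nonneg_left (by linarith) (by linarith)
  have h2 : n * (n - 2) = n ^ 2 - 2 * n := by ring
  linarith

lemma base_nonneg (i k u : ℝ) (h1 : 0 ≤ i) (h2 : i ≤ k - 1) (h3 : 0 < k - 1) (h4 : 0 ≤ u)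
    (h5 : u ≤ 1) : 0 ≤ 1 - i / (k - 1) * u := by
  have hq1 : i / (k - 1) ≤ 1 := by rw [div_le_one h3]; exact h2
  have hq0 : 0 ≤ i / (k - 1) := div_nonneg h1 h3.le
  have : i / (k - 1) * u ≤ 1 * 1 := by gcongr
  linarith

end KZ.LFT_aux

namespace KZ

open LFT_aux

theorem LFT_proved (hGLI : S_GLI) (hRAT : S_RAT) (hBAS : S_BAS) (hMON : S_MON) : S_LFT := by
  intro n k d hk hkn hn hd hle
  have hn3 : 3 ≤ n := by omega
  have hlog := log_ge_one n hn3
  have hn3' : (3 : ℝ) ≤ n := by exact_mod_cast hn3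
  have hn0 : (0 : ℝ) < n := by linarith
  have hk2 : (2 : ℝ) ≤ k := by exact_mod_cast hk
  have hd1 : 1 ≤ d := by
    by_contra hcon
    have : d = 0 := by omega
    rw [this] at hd
    norm_num at hd
    linarith
  obtain ⟨b1, -, -, b4, -⟩ := hBAS k n (by omega)
  have hN : ((n * (k - 1) : ℕ) : ℤ) = (n : ℤ) * ((k : ℤ) - 1) := by
    rw [Nat.cast_mul, Nat.cast_sub (by omega)]; push_cast; ring
  have hM1 : 1 ≤ k * d := Nat.mul_pos (by omega) hd1
  have hMN : k * d ≤ n * (k - 1) := by nlinarith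
  have hMN' : (((k * d : ℕ) : ℤ)) ≤ (n : ℤ) * (k - 1) := by rw [← hN]; exact_mod_cast hMN
  set a : ℝ := c k n ((k * d : ℕ) : ℤ) with ha
  have ha1 : 1 ≤ a := b4 _ (by positivity) hMN'
  set y : ℝ := c k n (((k * d : ℕ) : ℤ) - 1) / a with hy
  obtain ⟨y0, -, yM⟩ := hRAT k n (k * d) y (by omega) hM1 hMN rfl
  have y1 : y ≤ 1 := by
    rw [hy, div_le_one (by linarith)]
    refine hMON k n _ _ (by omega) (by linarith) ?_
    rw [← hN]
    have : 2 * (k * d) ≤ n * (k - 1) := by linarith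
    have h2 : ((2 * (k * d) : ℕ) : ℤ) ≤ ((n * (k - 1) : ℕ) : ℤ) := by exact_mod_cast this
    push_cast at h2 ⊢
    linarith
  have hny : 18 * k * Real.log n ≤ n * y := by
    push_cast at yM
    rcases le_total ((k : ℝ) * d) n with hc | hc
    · have h1 : (k : ℝ) * d ≤ y * (2 * n) := yM.trans (by gcongr; linarith)
      have h2 : 36 * Real.log n * k ≤ d * k := by gcongr
      linarith
    · have h1 : (k : ℝ) * d ≤ y * (2 * (k * d)) := yM.trans (by gcongr; linarith)
      have h3 : (0 : ℝ) < k * d := by exact_mod_cast hM1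
      have h2 : 1 / 2 ≤ y := by
        by_contra hcon
        push Not at hcon
        nlinarith
      nlinarith
  have hP := P_ge k hk y y0
  have hP0 : 0 < P k y := by linarith
  have hP2 : y / 2 ≤ 1 - 1 / P k y := by
    have h1 : 1 / P k y ≤ 1 / (1 + y) := one_div_le_one_div_of_le (by linarith) hP
    have h2 : y / 2 ≤ 1 - 1 / (1 + y) := by
      have h3 : 1 - 1 / (1 + y) = y / (1 + y) := by field_simp; ring
      rw [h3]
      gcongr
      linarith
    linarith
  have hP3 : 1 - 1 / P k y ≤ 1 := by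
    have : 0 ≤ 1 / P k y := by positivity
    linarith
  have hterm : ∀ i ∈ Finset.Ico 1 k, (n.choose i : ℝ) *
      c (k - i) n (((k - i : ℕ) : ℤ) * ((d : ℤ) + 1) - (k : ℤ)) ≤ a * (1 / (8 * (n : ℝ) ^ 3)) := by
    intro i hi
    have hi' := Finset.mem_Ico.1 hi
    have hi1 : (1 : ℝ) ≤ i := by exact_mod_cast hi'.1
    have hik : (i : ℝ) ≤ k - 1 := by
      have : i + 1 ≤ k := hi'.2
      have : ((i + 1 : ℕ) : ℝ) ≤ k := by exact_mod_cast this
      push_cast at this
      linarith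
    have hs : ((k - i : ℕ) : ℝ) = k - i := by rw [Nat.cast_sub hi'.2.le]
    have hG := hGLI n k d k (k - i) (k * d) y (by omega) (by omega)
      (by push_cast; ring) hM1 hMN rfl
    rw [← ha, hs] at hG
    have hsi : (k : ℝ) - (k - i) = i := by ring
    rw [hsi] at hG
    have hki : (0 : ℝ) < k - i := by linarith
    have e1 : y ^ ((k : ℝ) * i / (k - i)) ≤ 1 :=
      Real.rpow_le_one y0.le y1 (by positivity)
    have e2 : (1 - (i : ℝ) / (k - 1) * (1 - 1 / P k y)) ^ n ≤ Real.exp (-(9 * i * Real.log n)) := by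
      have hy2 : 0 ≤ 1 - 1 / P k y := by linarith
      have f0 : 0 ≤ 1 - (i : ℝ) / (k - 1) * (1 - 1 / P k y) :=
        base_nonneg i k _ (by linarith) hik (by linarith) hy2 hP3
      have f1 : (i : ℝ) / k * (y / 2) ≤ (i : ℝ) / (k - 1) * (1 - 1 / P k y) :=
        mul_le_mul (div_le_div_of_nonneg_left (by linarith) (by linarith) (by linarith)) hP2
          (by linarith) (div_nonneg (by linarith) (by linarith))
      calc (1 - (i : ℝ) / (k - 1) * (1 - 1 / P k y)) ^ n
          ≤ (Real.exp (-((i : ℝ) / k * (y / 2)))) ^ n := by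
            gcongr
            have := Real.add_one_le_exp (-((i : ℝ) / k * (y / 2)))
            linarith
        _ = Real.exp (-(n * ((i : ℝ) / k * (y / 2)))) := by
            rw [← Real.exp_nat_mul]; ring_nf
        _ ≤ Real.exp (-(9 * i * Real.log n)) := by
            apply Real.exp_le_exp.2
            have h1 : 9 * Real.log n ≤ n * y / (2 * k) := by
              rw [le_div_iff₀ (by positivity)]
              linarith
            have h2 : (n : ℝ) * ((i : ℝ) / k * (y / 2)) = i * (n * y / (2 * k)) := by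
              field_simp
            rw [h2]
            have h3 : (i : ℝ) * (9 * Real.log n) ≤ i * (n * y / (2 * k)) := by gcongr
            linarith
    have e3 : Real.exp (-(9 * i * Real.log n)) = 1 / (n : ℝ) ^ (9 * i) := by
      rw [Real.exp_neg, ← one_div]
      congr 1
      rw [show 9 * (i : ℝ) * Real.log n = ((9 * i : ℕ) : ℝ) * Real.log n by push_cast; ring,
        Real.exp_nat_mul, Real.exp_log hn0]
    have hb : (n : ℝ) * (k - 1) + 1 ≤ (n : ℝ) ^ 2 := by
      have : (k : ℝ) + 1 ≤ n := by exact_mod_cast hkn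
      exact size_le n k hn3' this
    have hb0 : 0 ≤ (n : ℝ) * (k - 1) + 1 := by
      have : 0 ≤ (n : ℝ) * (k - 1) := mul_nonneg hn0.le (by linarith)
      linarith
    have hG2 : c (k - i) n (((k - i : ℕ) : ℤ) * ((d : ℤ) + 1) - (k : ℤ)) ≤
        a * (n : ℝ) ^ 2 * 1 * (1 / (n : ℝ) ^ (9 * i)) := by
      refine hG.trans ?_
      rw [← e3]
      have : 0 ≤ (1 - (i : ℝ) / (k - 1) * (1 - 1 / P k y)) ^ n := pow_nonneg
        (base_nonneg i k _ (by linarith) hik (by linarith) (by linarith) hP3) n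
      gcongr
    have hcn : 0 ≤ a * (n : ℝ) ^ 2 * 1 * (1 / (n : ℝ) ^ (9 * i)) := by positivity
    calc (n.choose i : ℝ) * c (k - i) n (((k - i : ℕ) : ℤ) * ((d : ℤ) + 1) - (k : ℤ))
        ≤ (n.choose i : ℝ) * (a * (n : ℝ) ^ 2 * 1 * (1 / (n : ℝ) ^ (9 * i))) := by gcongr
      _ ≤ (n : ℝ) ^ i * (a * (n : ℝ) ^ 2 * 1 * (1 / (n : ℝ) ^ (9 * i))) := by
          gcongr; exact choose_le n i
      _ = a * ((n : ℝ) ^ 2 / (n : ℝ) ^ (8 * i)) := by
          rw [show 9 * i = i + 8 * i by ring, pow_add]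
          field_simp
      _ ≤ a * ((n : ℝ) ^ 2 / (n : ℝ) ^ 8) := by
          gcongr
          · linarith
          · omega
      _ ≤ a * (1 / (8 * (n : ℝ) ^ 3)) := by
          refine mul_le_mul_of_nonneg_left ?_ (by linarith)
          rw [div_le_div_iff₀ (by positivity) (by positivity)]
          have h8 : (8 : ℝ) ≤ (n : ℝ) ^ 3 := by
            calc (8 : ℝ) ≤ 3 ^ 3 := by norm_num
              _ ≤ (n : ℝ) ^ 3 := by gcongr
          have : (n : ℝ) ^ 2 * (8 * (n : ℝ) ^ 3) = 8 * (n : ℝ) ^ 5 := by ring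
          rw [this, one_mul, show (n : ℝ) ^ 8 = (n : ℝ) ^ 3 * (n : ℝ) ^ 5 by ring]
          gcongr
  have hc : (k : ℤ) * d = ((k * d : ℕ) : ℤ) := by push_cast; ring
  rw [hc, ← ha]
  unfold T
  refine (Finset.sum_le_sum hterm).trans ?_
  rw [Finset.sum_const, Nat.card_Ico, nsmul_eq_mul]
  have h1 : ((k - 1 : ℕ) : ℝ) ≤ n := by exact_mod_cast (by omega : k - 1 ≤ n)
  calc ((k - 1 : ℕ) : ℝ) * (a * (1 / (8 * (n : ℝ) ^ 3))) ≤ n * (a * (1 / (8 * (n : ℝ) ^ 3))) := by
        gcongr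
    _ = a / (8 * (n : ℝ) ^ 2) := by field_simp

end KZ
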