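import Pool.Agent.H69.KZ.Stm

namespace KZ.RGT_aux

lemma P_ge (r : ℕ) (y : ℝ) (hy : 1 ≤ y) : (r : ℝ) ≤ P r y := by
  unfold P
  have h1 : ∑ j ∈ Finset.range r, (1 : ℝ) ≤ ∑ j ∈ Finset.range r, y ^ j :=
    Finset.sum_le_sum fun j _ => one_le_pow₀ hy
  simpa using h1

lemma log_ge_one (n : ℕ) (hn : 3 ≤ n) : 1 ≤ Real.log n := by
  rw [Real.le_log_iff_exp_le (by positivity)]
  have h1 := Real.exp_one_lt_d9
  have h2 : (3 : ℝ) ≤ n := by exact_mod_cast hn
  linarith

lemma choose_succ_le (n i : ℕ) : (n.choose (i + 1) : ℝ) ≤ n * (n.choose i : ℝ) := by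
  have h := Nat.choose_succ_right_eq n i
  have h1 : n.choose (i + 1) ≤ n * n.choose i := by
    calc n.choose (i + 1) ≤ n.choose (i + 1) * (i + 1) := Nat.le_mul_of_pos_right _ (by omega)
      _ = n.choose i * (n - i) := h
      _ ≤ n.choose i * n := Nat.mul_le_mul_left _ (Nat.sub_le _ _)
      _ = n * n.choose i := by ring
  exact_mod_cast h1

lemma size_le (n r : ℝ) (hn : 3 ≤ n) (hr : r + 1 ≤ n) : n * (r - 1) + 1 ≤ n ^ 2 := by
  have h1 : n * (r - 1) ≤ n * (n - 2) := mul_le_mul_of_nonneg_left (by linarith) (by linarith)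
  have h2 : n * (n - 2) = n ^ 2 - 2 * n := by ring
  linarith

/-- the analytic estimate for one step -/
lemma step (n k r : ℕ) (y : ℝ) (hr : 2 ≤ r) (hrk : r ≤ k) (hkn : k < n)
    (hn : 36 * (k : ℝ) * Real.log n ≤ n) (hn3 : 3 ≤ n) (y1 : 1 ≤ y) (yn : y ≤ n) :
    (n * ((r : ℝ) - 1) + 1) * y ^ ((k : ℝ) * (r - (r - 1 : ℕ)) / (r - 1 : ℕ)) *
      (1 - ((r : ℝ) - (r - 1 : ℕ)) / (r - 1) * (1 - 1 / P r y)) ^ n ≤ 1 / (8 * (n : ℝ) ^ 4) := by
  have hlog := log_ge_one n hn3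
  have hn3' : (3 : ℝ) ≤ n := by exact_mod_cast hn3
  have hn0 : (0 : ℝ) < n := by linarith
  have hr2 : (2 : ℝ) ≤ r := by exact_mod_cast hr
  have hrk' : (r : ℝ) ≤ k := by exact_mod_cast hrk
  have hr1 : ((r - 1 : ℕ) : ℝ) = r - 1 := by rw [Nat.cast_sub (by omega)]; simp
  have hsub : (r : ℝ) - (r - 1) = 1 := by ring
  rw [hr1, hsub, mul_one]
  have hP := P_ge r y y1
  have hP0 : 0 < P r y := by linarith
  have e1 : y ^ ((k : ℝ) / (r - 1)) ≤ Real.exp (2 * k / r * Real.log n) := by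
    calc y ^ ((k : ℝ) / (r - 1)) ≤ (n : ℝ) ^ ((k : ℝ) / (r - 1)) :=
          Real.rpow_le_rpow (by linarith) yn (div_nonneg (by linarith) (by linarith))
      _ ≤ (n : ℝ) ^ (2 * (k : ℝ) / r) := by
          apply Real.rpow_le_rpow_of_exponent_le (by linarith)
          rw [div_le_div_iff₀ (by linarith) (by linarith)]
          have : (k : ℝ) * r ≤ k * (2 * (r - 1)) := mul_le_mul_of_nonneg_left (by linarith)
            (by linarith)
          linarith
      _ = Real.exp (2 * k / r * Real.log n) := by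
          rw [Real.rpow_def_of_pos hn0, mul_comm]
  have hPr : 1 - 1 / (r : ℝ) ≤ 1 - 1 / P r y := by
    have := one_div_le_one_div_of_le (by linarith) hP
    linarith
  have hP1 : 1 - 1 / P r y ≤ 1 := by
    have : 0 ≤ 1 / P r y := by positivity
    linarith
  have hinv : 0 < 1 / ((r : ℝ) - 1) := one_div_pos.2 (by linarith)
  have hinv1 : 1 / ((r : ℝ) - 1) ≤ 1 := by rw [div_le_one (by linarith)]; linarith
  have f0 : 0 ≤ 1 - 1 / ((r : ℝ) - 1) * (1 - 1 / P r y) := by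
    have h0 : 0 ≤ 1 - 1 / P r y := by
      have : 1 / (r : ℝ) ≤ 1 := by rw [div_le_one (by linarith)]; linarith
      linarith
    have : 1 / ((r : ℝ) - 1) * (1 - 1 / P r y) ≤ 1 * 1 := mul_le_mul hinv1 hP1 h0 (by norm_num)
    linarith
  have f1 : 1 - 1 / ((r : ℝ) - 1) * (1 - 1 / P r y) ≤ 1 - 1 / r := by
    have h1 : 1 / ((r : ℝ) - 1) * (1 - 1 / r) ≤ 1 / ((r : ℝ) - 1) * (1 - 1 / P r y) :=
      mul_le_mul_of_nonneg_left hPr hinv.le
    have h2 : 1 / ((r : ℝ) - 1) * (1 - 1 / r) = 1 / r := by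
      have : (r : ℝ) - 1 ≠ 0 := by linarith
      field_simp
    linarith
  have e2 : (1 - 1 / ((r : ℝ) - 1) * (1 - 1 / P r y)) ^ n ≤ Real.exp (-(n / r)) := by
    calc (1 - 1 / ((r : ℝ) - 1) * (1 - 1 / P r y)) ^ n ≤ (Real.exp (-(1 / r))) ^ n := by
          gcongr
          have := Real.add_one_le_exp (-(1 / (r : ℝ)))
          linarith
      _ = Real.exp (-(n / r)) := by rw [← Real.exp_nat_mul]; ring_nf
  have hb := size_le n r hn3' (by
    have : (k : ℝ) + 1 ≤ n := by exact_mod_cast hkn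
    linarith)
  have hb0 : 0 ≤ (n : ℝ) * (r - 1) + 1 := by
    have : 0 ≤ (n : ℝ) * (r - 1) := mul_nonneg hn0.le (by linarith)
    linarith
  have e3 : Real.exp (2 * k / r * Real.log n) * Real.exp (-(n / r)) ≤
      Real.exp (-(9 * Real.log n)) := by
    rw [← Real.exp_add]
    apply Real.exp_le_exp.2
    have h1 : 2 * k / r * Real.log n + -(n / r) = (2 * k * Real.log n - n) / r := by ring
    rw [h1, div_le_iff₀ (by linarith)]
    have h2 : (r : ℝ) * Real.log n ≤ k * Real.log n := by gcongr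
    have h3 : 0 ≤ (k : ℝ) * Real.log n := mul_nonneg (by linarith) (by linarith)
    nlinarith
  have e4 : Real.exp (-(9 * Real.log n)) = 1 / (n : ℝ) ^ 9 := by
    rw [Real.exp_neg, ← one_div]
    congr 1
    rw [show 9 * Real.log n = ((9 : ℕ) : ℝ) * Real.log n by norm_num, Real.exp_nat_mul,
      Real.exp_log hn0]
  calc (n * ((r : ℝ) - 1) + 1) * y ^ ((k : ℝ) / (r - 1)) *
        (1 - 1 / ((r : ℝ) - 1) * (1 - 1 / P r y)) ^ n
      ≤ (n : ℝ) ^ 2 * Real.exp (2 * k / r * Real.log n) * Real.exp (-(n / r)) := by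
        have := Real.rpow_nonneg (by linarith : (0 : ℝ) ≤ y) ((k : ℝ) / (r - 1))
        gcongr
    _ = (n : ℝ) ^ 2 * (Real.exp (2 * k / r * Real.log n) * Real.exp (-(n / r))) := by ring
    _ ≤ (n : ℝ) ^ 2 * (1 / (n : ℝ) ^ 9) := by rw [← e4]; gcongr
    _ ≤ 1 / (8 * (n : ℝ) ^ 4) := by
        rw [mul_one_div, div_le_div_iff₀ (by positivity) (by positivity), one_mul]
        have h8 : (8 : ℝ) ≤ (n : ℝ) ^ 3 := by
          calc (8 : ℝ) ≤ 3 ^ 3 := by norm_num
            _ ≤ (n : ℝ) ^ 3 := by gcongr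
        have h9 : (n : ℝ) ^ 2 * (8 * (n : ℝ) ^ 4) = 8 * (n : ℝ) ^ 6 := by ring
        rw [h9, show (n : ℝ) ^ 9 = (n : ℝ) ^ 3 * (n : ℝ) ^ 6 by ring]
        gcongr

end KZ.RGT_aux

namespace KZ

open RGT_aux

theorem RGT_proved (hGLI : S_GLI) (hRAT : S_RAT) (hBAS : S_BAS) (hMON : S_MON) : S_RGT := by
  intro n k d hk hkn hn hlt
  have hn3 : 3 ≤ n := by omega
  have hlog := log_ge_one n hn3
  have hn3' : (3 : ℝ) ≤ n := by exact_mod_cast hn3
  have hn0 : (0 : ℝ) < n := by linarith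
  have hk2 : (2 : ℝ) ≤ k := by exact_mod_cast hk
  have h2k : 2 * k ≤ n := by
    have h1 : (2 : ℝ) * k ≤ n := by nlinarith
    exact_mod_cast h1
  set t : ℕ → ℝ := fun i => (n.choose i : ℝ) *
    c (k - i) n (((k - i : ℕ) : ℤ) * ((d : ℤ) + 1) - (k : ℤ)) with ht
  have ht0 : ∀ i, i < k → 0 ≤ t i := fun i hi =>
    mul_nonneg (Nat.cast_nonneg _) ((hBAS (k - i) n (by omega)).1 _)
  have hstep : ∀ i, i + 1 < k → t (i + 1) ≤ t i * (1 / (8 * (n : ℝ) ^ 3)) := by
    intro i hi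
    set r : ℕ := k - i with hr
    have hr2 : 2 ≤ r := by omega
    have hs : k - (i + 1) = r - 1 := by omega
    have hrz : (r : ℤ) = k - i := by rw [hr]; omega
    obtain ⟨b1, -, b3, b4, b5⟩ := hBAS r n (by omega)
    obtain ⟨-, -, b3', -, -⟩ := hBAS (r - 1) n (by omega)
    have hs' : ((r - 1 : ℕ) : ℤ) = r - 1 := by omega
    simp only [ht]
    rw [hs, ← hr]
    have hkpos : (0 : ℤ) < k := by omega
    have hltz : (n : ℤ) * (k - 1) < 2 * k * d := by
      have h1 : ((n * (k - 1) : ℕ) : ℤ) < ((2 * k * d : ℕ) : ℤ) := by exact_mod_cast hlt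
      rw [Nat.cast_mul, Nat.cast_sub (by omega)] at h1
      push_cast at h1
      exact h1
    -- the index is in the right half
    have hhalf : (n : ℤ) * (r - 1) + 1 ≤ 2 * ((r : ℤ) * ((d : ℤ) + 1) - k) := by
      have h1 : 0 < (k : ℤ) * (2 * ((r : ℤ) * ((d : ℤ) + 1) - k) - (n : ℤ) * (r - 1)) := by
        have h2 : (k : ℤ) * (2 * ((r : ℤ) * ((d : ℤ) + 1) - k) - (n : ℤ) * (r - 1)) =
            (r : ℤ) * (2 * k * d - n * (k - 1)) + (k - r) * (n - 2 * k) := by ring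
        rw [h2]
        have h3 : (0 : ℤ) < (r : ℤ) * (2 * k * d - n * (k - 1)) :=
          mul_pos (by omega) (by linarith)
        have h4 : (0 : ℤ) ≤ (k - r) * (n - 2 * k) := mul_nonneg (by omega) (by omega)
        linarith
      have h5 := pos_of_mul_pos_right h1 hkpos.le
      linarith
    set M : ℤ := (r : ℤ) * ((d : ℤ) + 1) - k with hM
    rcases lt_or_ge ((n : ℤ) * (r - 1)) M with hbig | hsmall
    · -- everything vanishes
      have h1 : (n : ℤ) * (((r - 1 : ℕ) : ℤ) - 1) < ((r - 1 : ℕ) : ℤ) * ((d : ℤ) + 1) - k := by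
        rw [hs']
        rcases le_or_gt ((d : ℤ) + 1) n with hdn | hdn
        · have h2 : ((r : ℤ) - 1) * ((d : ℤ) + 1) - k = M - ((d : ℤ) + 1) := by rw [hM]; ring
          rw [h2]
          have h3 : (n : ℤ) * ((r : ℤ) - 1 - 1) = n * (r - 1) - n := by ring
          rw [h3]
          linarith
        · have h2 : ((r : ℤ) - 1) * (n + 1) ≤ ((r : ℤ) - 1) * ((d : ℤ) + 1) :=
            mul_le_mul_of_nonneg_left (by omega) (by omega)
          have h3 : ((r : ℤ) - 1) * (n + 1) = n * ((r : ℤ) - 1 - 1) + n + (r - 1) := by ring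
          have h4 : (k : ℤ) < n := by omega
          have h5 : (2 : ℤ) ≤ r := by omega
          linarith
      rw [b3' _ h1, mul_zero]
      exact mul_nonneg (mul_nonneg (Nat.cast_nonneg _) (b1 _)) (by positivity)
    · obtain ⟨m, hm⟩ : ∃ m : ℕ, (m : ℤ) = M := ⟨M.toNat, Int.toNat_of_nonneg (by nlinarith)⟩
      have hr2z : (2 : ℤ) ≤ r := by omega
      have hm1 : 1 ≤ m := by
        have h1 : (1 : ℤ) ≤ (n : ℤ) * (r - 1) := by nlinarith
        have : (1 : ℤ) ≤ M := by linarith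
        omega
      have hmn : m ≤ n * (r - 1) := by
        have h1 : (m : ℤ) ≤ ((n * (r - 1) : ℕ) : ℤ) := by
          rw [hm, Nat.cast_mul, hs']; exact hsmall
        exact_mod_cast h1
      have hcM : 1 ≤ c r n M := b4 _ (by omega) hsmall
      set y : ℝ := c r n ((m : ℤ) - 1) / c r n (m : ℤ) with hy
      obtain ⟨y0, yn, -⟩ := hRAT r n m y (by omega) hm1 hmn rfl
      have y1 : 1 ≤ y := by
        rw [hy, one_le_div (by rw [hm]; linarith), hm, ← b5 M]
        exact hMON r n _ _ (by omega) (by linarith) (by linarith)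
      have hG := hGLI n k d r (r - 1) m y (by omega) (by omega) (by rw [hm]) hm1 hmn rfl
      have hS := step n k r y hr2 (by omega) hkn hn hn3 y1 yn
      rw [hm] at hG
      have hG2 : c (r - 1) n (((r - 1 : ℕ) : ℤ) * ((d : ℤ) + 1) - (k : ℤ)) ≤
          c r n M * (1 / (8 * (n : ℝ) ^ 4)) := by
        refine hG.trans ?_
        rw [mul_assoc, mul_assoc]
        refine mul_le_mul_of_nonneg_left ?_ (by linarith)
        rw [← mul_assoc]
        exact hS
      have hc0 : 0 ≤ c r n M * (1 / (8 * (n : ℝ) ^ 4)) := mul_nonneg (by linarith) (by positivity)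
      calc (n.choose (i + 1) : ℝ) *
          c (r - 1) n (((r - 1 : ℕ) : ℤ) * ((d : ℤ) + 1) - (k : ℤ))
          ≤ (n.choose (i + 1) : ℝ) * (c r n M * (1 / (8 * (n : ℝ) ^ 4))) :=
            mul_le_mul_of_nonneg_left hG2 (Nat.cast_nonneg _)
        _ ≤ (n * (n.choose i : ℝ)) * (c r n M * (1 / (8 * (n : ℝ) ^ 4))) :=
            mul_le_mul_of_nonneg_right (choose_succ_le n i) hc0
        _ = (n.choose i : ℝ) * c r n M * (1 / (8 * (n : ℝ) ^ 3)) := by field_simp
  have hz : 1 / (8 * (n : ℝ) ^ 3) ≤ 1 := by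
    rw [div_le_one (by positivity)]
    have : (1 : ℝ) ≤ (n : ℝ) ^ 3 := one_le_pow₀ (by linarith)
    linarith
  have hall : ∀ i, i + 1 < k → t (i + 1) ≤ t 0 * (1 / (8 * (n : ℝ) ^ 3)) := by
    intro i
    induction i with
    | zero => intro hi; exact hstep 0 hi
    | succ i ih =>
      intro hi
      refine (hstep (i + 1) hi).trans ?_
      have h1 := ih (by omega)
      have h2 := ht0 (i + 1) (by omega)
      have h3 : t (i + 1) * (1 / (8 * (n : ℝ) ^ 3)) ≤ t (i + 1) * 1 :=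
        mul_le_mul_of_nonneg_left hz h2
      linarith
  have ht00 : t 0 = c k n ((k : ℤ) * d) := by
    simp only [ht, Nat.choose_zero_right, Nat.cast_one, one_mul, Nat.sub_zero]
    congr 1
    ring
  unfold T
  have hterm : ∀ i ∈ Finset.Ico 1 k, (n.choose i : ℝ) *
      c (k - i) n (((k - i : ℕ) : ℤ) * ((d : ℤ) + 1) - (k : ℤ)) ≤
        t 0 * (1 / (8 * (n : ℝ) ^ 3)) := by
    intro i hi
    have hi' := Finset.mem_Ico.1 hi
    have h1 := hall (i - 1) (by omega)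
    rw [show i - 1 + 1 = i by omega] at h1
    exact h1
  refine (Finset.sum_le_sum hterm).trans ?_
  rw [Finset.sum_const, Nat.card_Ico, nsmul_eq_mul, ht00]
  have hc0 := (hBAS k n (by omega)).1 ((k : ℤ) * d)
  have h1 : ((k - 1 : ℕ) : ℝ) ≤ n := by exact_mod_cast (by omega : k - 1 ≤ n)
  calc ((k - 1 : ℕ) : ℝ) * (c k n ((k : ℤ) * d) * (1 / (8 * (n : ℝ) ^ 3)))
      ≤ n * (c k n ((k : ℤ) * d) * (1 / (8 * (n : ℝ) ^ 3))) := by gcongr
    _ = c k n ((k : ℤ) * d) / (8 * (n : ℝ) ^ 2) := by field_simp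

end KZ
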