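import Mathlib

/-! Crew KZ: MP_31bda2_co. The `h*`-polynomial of the hypersimplex `Δ_{k,n}` is unimodal for all
`k ≤ c n / log n` (and `n - k ≤ c n / log n`).

`c r n m` = number of vectors in `{0,...,r-1}^n` with sum `m` (`m : ℤ`), i.e. the coefficient of
`y^m` in `(1 + y + ... + y^(r-1))^n`. Katzman's formula:
`h_d = ∑_{i<k} (-1)^i C(n,i) c (k-i) n ((k-i)(d+1) - k)`. -/

namespace KZ

/-- number of vectors in `{0,...,r-1}^n` with sum `m` -/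
noncomputable def c (r : ℕ) : ℕ → ℤ → ℝ
  | 0, m => if m = 0 then 1 else 0
  | n + 1, m => ∑ j ∈ Finset.range r, c r n (m - (j : ℤ))

noncomputable def P (r : ℕ) (y : ℝ) : ℝ := ∑ j ∈ Finset.range r, y ^ j

/-- Ehrhart function of the hypersimplex -/
def L (n k t : ℕ) : ℕ := ((Finset.univ : Finset (Fin n → Fin (t + 1))).filter
          (fun x => ∑ i, (x i : ℕ) = k * t)).card

def h (n k i : ℕ) : ℤ := ∑ j ∈ Finset.range (i + 1),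
          (-1 : ℤ) ^ j * (n.choose j : ℤ) * (L n k (i - j) : ℤ)

/-- the correction terms of Katzman's formula, in absolute value -/
noncomputable def T (n k d : ℕ) : ℝ := ∑ i ∈ Finset.Ico 1 k,
  (n.choose i : ℝ) * c (k - i) n (((k - i : ℕ) : ℤ) * ((d : ℤ) + 1) - (k : ℤ))

/-- KAT: Katzman's formula. `L n k t = c (t+1) n (k t)`; as power series
`∑_m c r n m X^m = (1-X^r)^n (1-X)^(-n)`, so
`c (t+1) n (kt) = ∑_i (-1)^i C(n,i) g (kt - i(t+1))`, `g` = coefficients of `(1-X)^(-n)` (`0` at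
negative indices, nothing for `i ≥ k`), and
`∑_j (-1)^j C(n,j) g ((k-i)(d-j) - i) = [X^((k-i)d-i)] (1-X^(k-i))^n (1-X)^(-n)`. -/
def S_KAT : Prop := ∀ n k d : ℕ, 1 ≤ n → 1 ≤ k → (h n k d : ℝ) =
  ∑ i ∈ Finset.range k, (-1 : ℝ) ^ i * (n.choose i : ℝ) *
    c (k - i) n (((k - i : ℕ) : ℤ) * ((d : ℤ) + 1) - (k : ℤ))

/-- BAS: basic properties. Induction on `n`. -/
def S_BAS : Prop := ∀ r n : ℕ, 1 ≤ r →
  (∀ m : ℤ, 0 ≤ c r n m) ∧ (∀ m : ℤ, m < 0 → c r n m = 0) ∧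
  (∀ m : ℤ, (n : ℤ) * (r - 1) < m → c r n m = 0) ∧
  (∀ m : ℤ, 0 ≤ m → m ≤ (n : ℤ) * (r - 1) → 1 ≤ c r n m) ∧
  (∀ m : ℤ, c r n ((n : ℤ) * (r - 1) - m) = c r n m)

/-- TP2: log-concavity. Induction on `n`; for `s = 1` (general `p ≤ q`): with `a = c r n`,
`c_p c_q - c_(p-1) c_(q+1) = ∑_(j=0)^(r-1) a_p a_(q-j) + ∑_(i=1)^(r-1) a_(p-i) a_(q-r+1)
 - ∑_(j=-1)^(r-2) a_(p-r) a_(q-j) - ∑_(i=1)^(r-1) a_(p-i) a_(q+1)`,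
and `a_(p-i) a_(q+1) ≤ a_p a_(q-(i-1))`, `a_(p-r) a_(q-j) ≤ a_(p-(j+1)) a_(q-r+1)` by the induction
hypothesis (the leftover `a_p a_(q-r+1)` is used once). Then iterate `s`. -/
def S_TP2 : Prop := ∀ (r n : ℕ) (p q : ℤ) (s : ℕ), p ≤ q →
  c r n (p - s) * c r n (q + s) ≤ c r n p * c r n q

/-- MON: from BAS and TP2 with `(i, N-i)` outside `(j, N-j)`: `c_i² ≤ c_j²`. -/
def S_MON : Prop := ∀ (r n : ℕ) (i j : ℤ), 1 ≤ r → i ≤ j → i + j ≤ (n : ℤ) * (r - 1) →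
  c r n i ≤ c r n j

/-- IDN: induction on `n` (`m c_(n+2)(m) = ∑_j (m-j) c_(n+1)(m-j) + ∑_j j c_(n+1)(m-j)`). -/
def S_IDN : Prop := ∀ (r n : ℕ) (m : ℤ),
  (m : ℝ) * c r (n + 1) m = (n + 1) * ∑ j ∈ Finset.range r, (j : ℝ) * c r n (m - (j : ℤ))

/-- RAT: bounds for the ratio `y = c (M-1) / c M`, from IDN and BAS.
`M c_M ≤ (M-1+n) c_(M-1)`: `M c_M = n ∑_(j=1)^(r-1) j a_(M-j)`, `(M-1) c_(M-1) = n ∑_(j=1)^r (j-1) a_(M-j)`,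
`c_(M-1) = ∑_(j=1)^r a_(M-j)` with `a = c r (n-1)`. Upper bound `y ≤ n`: by symmetry
`y = c_(j+1)/c_j`, `j = n(r-1) - M ≥ 0`, and `(j+1) c_(j+1) ≤ (j+n) c_j`. -/
def S_RAT : Prop := ∀ (r n M : ℕ) (y : ℝ), 1 ≤ r → 1 ≤ M → M ≤ n * (r - 1) →
  y = c r n ((M : ℤ) - 1) / c r n M → 0 < y ∧ y ≤ n ∧ (M : ℝ) ≤ y * (M + n)

/-- EVL: generating function. -/
def S_EVL : Prop := ∀ (r n : ℕ) (y : ℝ), 1 ≤ r →
  ∑ m ∈ Finset.range (n * (r - 1) + 1), c r n (m : ℤ) * y ^ m = P r y ^ n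

/-- MOD: lower bound at the mode, from TP2, BAS, EVL: `c_j y^j ≤ c_M y^M` for all `j`. -/
def S_MOD : Prop := ∀ (r n M : ℕ) (y : ℝ), 1 ≤ r → 1 ≤ M → M ≤ n * (r - 1) →
  y = c r n ((M : ℤ) - 1) / c r n M →
  P r y ^ n ≤ (n * ((r : ℝ) - 1) + 1) * c r n M * y ^ M

/-- UPB: upper bound, from BAS and EVL. -/
def S_UPB : Prop := ∀ (r n : ℕ) (m : ℤ) (x : ℝ), 1 ≤ r → 0 < x → c r n m * x ^ m ≤ P r x ^ n

/-- AMG: `P s (y^(r/s)) ≤ P r y - ((r-s)/(r-1)) (P r y - 1)`. With `z = y^r` and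
`Q r = ∑_(j=1)^(r-1) z^(j/r)`: `z^(j/(r-1)) ≤ (1 - j/(r-1)) z^(j/r) + (j/(r-1)) z^((j+1)/r)` (weighted
AM-GM), so `Q (r-1) ≤ ((r-2)/(r-1)) Q r`; iterate. -/
def S_AMG : Prop := ∀ (s r : ℕ) (y : ℝ), 1 ≤ s → s ≤ r → 2 ≤ r → 0 < y →
  P s (y ^ ((r : ℝ) / s)) ≤ P r y - ((r : ℝ) - s) / (r - 1) * (P r y - 1)

/-- GLI: comparison of the terms of Katzman's formula, from MOD, UPB (with `x = y^(r/s)`), AMG, RAT, BAS. -/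
def S_GLI : Prop := ∀ (n k d r s M : ℕ) (y : ℝ), 1 ≤ s → s < r →
  (M : ℤ) = (r : ℤ) * ((d : ℤ) + 1) - k → 1 ≤ M → M ≤ n * (r - 1) →
  y = c r n ((M : ℤ) - 1) / c r n M →
  c s n ((s : ℤ) * ((d : ℤ) + 1) - k) ≤ c r n M * (n * ((r : ℝ) - 1) + 1) *
    y ^ ((k : ℝ) * (r - s) / s) * (1 - ((r : ℝ) - s) / (r - 1) * (1 - 1 / P r y)) ^ n

/-- LFT: left half. From GLI with `r = k`, `s = k - i`, `M = k d`; `y ≤ 1` by MON; `1 - 1/P ≥ y/2`;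
`y ≥ kd/(kd+n)` (RAT), so `n i y / (2k) ≥ i min(d, n/k)/4 ≥ 9 i log n`; the `i`-th term is
`≤ n^i · n² · n^(-9i)` times the main term. -/
def S_LFT : Prop := ∀ n k d : ℕ, 2 ≤ k → k < n → 36 * (k : ℝ) * Real.log n ≤ n →
  36 * Real.log n ≤ d → 2 * k * d ≤ n * (k - 1) →
  T n k d ≤ c k n ((k : ℤ) * d) / (8 * (n : ℝ) ^ 2)

/-- RGT: right half. Consecutive terms, GLI with `s = r - 1`, `r = k - i`, `M = r(d+1) - k`: `1 ≤ y ≤ n`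
(MON and symmetry: `2M ≥ n(r-1)+1`), `P ≥ r`, so
`C(n,i+1) c_(r-1) ≤ n · n² · n^(2k/r) · e^(-n/r) · C(n,i) c_r ≤ n^(-10) C(n,i) c_r`. If `M > n(r-1)` all
further terms vanish. -/
def S_RGT : Prop := ∀ n k d : ℕ, 2 ≤ k → k < n → 36 * (k : ℝ) * Real.log n ≤ n →
  n * (k - 1) < 2 * k * d →
  T n k d ≤ c k n ((k : ℤ) * d) / (8 * (n : ℝ) ^ 2)

/-- MAI: quantitative increase of the main term. `a = c k n`, `N = n(k-1)`, `1+δ = a_(m+k)/a_m`. IDN for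
`M = m+k-1`: `∑_(0 ≤ j < (k-1)/2) ((k-1)/2 - j)(a_(m+k-1-j) - a_(m+j)) = τ c k (n+1) M/(n+1)`,
`τ = (N-k-2m+1)/2 ≥ 1`. With `X_j = a_(m+k-1-j) = a_(s+1+j)`, `s = N-m-k ≥ m+1`, `Y_j = a_(m+j)`: TP2 gives
`a_m X_j ≤ a_s a_(m+1+j)`, `a_m a_(m+1+j) ≤ a_(m+1) a_(m+j)`, MON `a_(m+1) ≤ a_s = a_(m+k)`; so
`X_j ≤ (1+δ)² Y_j`, hence `τ/(n+1) ≤ ((1+δ)²-1)(k-1)/4`. -/
def S_MAI : Prop := ∀ (n k : ℕ) (m : ℤ), 2 ≤ k → 0 ≤ m → 2 * m + k < (n : ℤ) * (k - 1) →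
  c k n m * (1 + 1 / ((n + 1) * k)) ≤ c k n (m + k)

/-- LGR: double counting of `(x, S)`, `|S| = k`, `x + 1_S`. -/
def S_LGR : Prop := ∀ n k t : ℕ, k * (t + 1) ≤ n →
  L n k t * n.choose k ≤ L n k (t + 1) * (k * (t + 1)).choose k

/-- GRO: small `d`. `C(n,k)/C(s,k) ≥ (n/s)^k`, so LGR gives `L(t+1) ≥ 20 n L(t)` for `t ≤ 36 log n + 2`,
and then `|h_d - L(d)| ≤ ∑_(j≥1) n^j L(d-j) ≤ L(d)/19`. (`C` large forces `n` large. For `k ≥ log n`: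
`(n/(k(t+1)))^k ≥ 5^k ≥ 20 n`; for `2 ≤ k < log n`: `n/(k(t+1)) ≥ √(20 n)`.) -/
def S_GRO : Prop := ∃ C : ℝ, 0 < C ∧ ∀ n k : ℕ, 2 ≤ k → k < n → C * k * Real.log n ≤ n →
  ∀ d : ℕ, (d : ℝ) ≤ 36 * Real.log n + 1 → h n k d ≤ h n k (d + 1)

/-- COM: from KAT, LFT, RGT, MAI, BAS. `|h_d - c_(kd)| ≤ T_d ≤ ε c_(kd)`, `ε = 1/(8n²)`, and MAI (right side:
MAI for `m = N - kd - k` and symmetry; if `m < 0` then `c_(k(d+1)) = 0`). -/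
def S_COM : Prop := ∀ n k d : ℕ, 2 ≤ k → k < n → 36 * (k : ℝ) * Real.log n ≤ n →
  36 * Real.log n ≤ d →
  (2 * k * d + k < n * (k - 1) → h n k d ≤ h n k (d + 1)) ∧
  (n * (k - 1) < 2 * k * d + k → h n k (d + 1) ≤ h n k d)

/-- SYL: `x ↦ t - x`. -/
def S_SYL : Prop := ∀ n k t : ℕ, k ≤ n → L n k t = L n (n - k) t

/-- UNI: from GRO, COM, KAT (for `k = 1`). -/
def S_UNI : Prop := ∃ C : ℝ, 0 < C ∧ ∀ n k : ℕ, 0 < k → k < n → C * k * Real.log n ≤ n →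
  ∃ m : ℕ, m ≤ n - 1 ∧
      (∀ i j : ℕ, i ≤ j → j ≤ m → h n k i ≤ h n k j) ∧
      (∀ i j : ℕ, m ≤ i → i ≤ j → j ≤ n - 1 → h n k j ≤ h n k i)

/-- RES: the hand-in, from UNI and SYL. -/
def S_RES : Prop := ∃ C : ℝ, 0 < C ∧ ∀ n k : ℕ, 0 < k → k < n →
    (C * k * Real.log n ≤ n ∨ C * (n - k : ℕ) * Real.log n ≤ n) →
    ∀ L : ℕ → ℕ,
      (∀ t : ℕ, L t = ((Finset.univ : Finset (Fin n → Fin (t + 1))).filter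
          (fun x => ∑ i, (x i : ℕ) = k * t)).card) →
    ∀ h : ℕ → ℤ,
      (∀ i : ℕ, h i = ∑ j ∈ Finset.range (i + 1),
          (-1 : ℤ) ^ j * (n.choose j : ℤ) * (L (i - j) : ℤ)) →
    ∃ m : ℕ, m ≤ n - 1 ∧
      (∀ i j : ℕ, i ≤ j → j ≤ m → h i ≤ h j) ∧
      (∀ i j : ℕ, m ≤ i → i ≤ j → j ≤ n - 1 → h j ≤ h i)

end KZ
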