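import Pool.Agent.H69.KZ.Stm

namespace KZ.UNI_aux

lemma unimodal (h : ℕ → ℤ) (n : ℕ)
    (H : ∀ d d' : ℕ, d < d' → h (d + 1) < h d → h (d' + 1) ≤ h d') :
    ∃ m : ℕ, m ≤ n - 1 ∧
      (∀ i j : ℕ, i ≤ j → j ≤ m → h i ≤ h j) ∧
      (∀ i j : ℕ, m ≤ i → i ≤ j → j ≤ n - 1 → h j ≤ h i) := by
  classical
  by_cases hex : ∃ d, d < n - 1 ∧ h (d + 1) < h d
  · refine ⟨Nat.find hex, (Nat.find_spec hex).1.le, ?_, ?_⟩
    · intro i j hij hj
      induction j, hij using Nat.le_induction with
      | base => exact le_refl _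
      | succ j hij ih =>
        have h1 := Nat.find_min hex (show j < Nat.find hex by omega)
        have h2 : j < n - 1 := by have := (Nat.find_spec hex).1; omega
        have h3 : ¬ h (j + 1) < h j := fun hh => h1 ⟨h2, hh⟩
        exact (ih (by omega)).trans (not_lt.1 h3)
    · intro i j hi hij _
      induction j, hij using Nat.le_induction with
      | base => exact le_refl _
      | succ j hij ih =>
        refine le_trans ?_ (ih (by omega))
        rcases Nat.lt_or_ge (Nat.find hex) j with h1 | h1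
        · exact H _ _ h1 (Nat.find_spec hex).2
        · have h2 : j = Nat.find hex := by omega
          rw [h2]
          exact (Nat.find_spec hex).2.le
  · push Not at hex
    refine ⟨n - 1, le_refl _, ?_, ?_⟩
    · intro i j hij hj
      induction j, hij using Nat.le_induction with
      | base => exact le_refl _
      | succ j hij ih => exact (ih (by omega)).trans (hex j (by omega))
    · intro i j hi hij hj
      have : i = j := by omega
      rw [this]

lemma c_one (n : ℕ) (m : ℤ) : c 1 n m = if m = 0 then 1 else 0 := by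
  induction n generalizing m with
  | zero => rfl
  | succ n ih =>
    show ∑ j ∈ Finset.range 1, c 1 n (m - (j : ℤ)) = _
    rw [Finset.sum_range_one, ih]
    simp

end KZ.UNI_aux

namespace KZ

open UNI_aux

theorem UNI_proved (hGRO : S_GRO) (hCOM : S_COM) (hKAT : S_KAT) : S_UNI := by
  obtain ⟨C, hC, hG⟩ := hGRO
  refine ⟨max C 36, lt_max_of_lt_left hC, ?_⟩
  intro n k hk hkn hn
  have hlog : 0 ≤ Real.log n := Real.log_natCast_nonneg n
  have hk0 : (0 : ℝ) ≤ k := Nat.cast_nonneg k
  have hn1 : C * k * Real.log n ≤ n := le_trans (by gcongr; exact le_max_left _ _) hn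
  have hn2 : 36 * (k : ℝ) * Real.log n ≤ n := le_trans (by gcongr; exact le_max_right _ _) hn
  apply unimodal
  rcases Nat.lt_or_ge 1 k with hk2 | hk2
  · intro d d' hdd hd
    have h1 : ¬ (d : ℝ) ≤ 36 * Real.log n + 1 := fun hh =>
      absurd (hG n k hk2 hkn hn1 d hh) (not_le.2 hd)
    push Not at h1
    have h2 := hCOM n k d hk2 hkn hn2 (by linarith)
    have h3 : ¬ (2 * k * d + k < n * (k - 1)) := fun hh => absurd (h2.1 hh) (not_le.2 hd)
    have h4 : (d : ℝ) < d' := by exact_mod_cast hdd
    refine (hCOM n k d' hk2 hkn hn2 (by linarith)).2 ?_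
    have h5 : 2 * k * d + 2 * k ≤ 2 * k * d' := by
      calc 2 * k * d + 2 * k = 2 * k * (d + 1) := by ring
        _ ≤ 2 * k * d' := Nat.mul_le_mul_left _ hdd
    omega
  · have hk1 : k = 1 := by omega
    subst hk1
    intro d d' hdd _
    have h1 : ∀ e : ℕ, (h n 1 e : ℝ) = if e = 0 then 1 else 0 := by
      intro e
      rw [hKAT n 1 e (by omega) le_rfl]
      simp [c_one]
    have h2 : (h n 1 (d' + 1) : ℝ) ≤ h n 1 d' := by
      rw [h1, h1, if_neg (by omega)]
      split_ifs <;> norm_num
    exact_mod_cast h2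

theorem RES_proved (hUNI : S_UNI) (hSYL : S_SYL) : S_RES := by
  obtain ⟨C, hC, hU⟩ := hUNI
  refine ⟨C, hC, ?_⟩
  intro n k hk hkn hn L' hL h' hh
  have e1 : L' = L n k := by funext t; rw [hL t]; rfl
  have e2 : h' = h n k := by funext i; rw [hh i, e1]; rfl
  rw [e2]
  rcases hn with hn | hn
  · exact hU n k hk hkn hn
  · have e3 : ∀ t, L n k t = L n (n - k) t := fun t => hSYL n k t hkn.le
    have e4 : h n k = h n (n - k) := by
      funext i
      unfold h
      simp_rw [e3]
    rw [e4]
    exact hU n (n - k) (by omega) (by omega) hn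

end KZ
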